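import Mathlib
import Pool.Agent.Q265.SC.Pos
import Pool.Agent.Q265.SC.Neg

set_option autoImplicit false

/-!
# MP_d2274e_an: functions semiconvex and semiconcave with modulus on cone-free convex sets

The four cases of Q1: (c) and (d) have a positive answer for all `G`; (a) and (b) have a negative
answer: for the concave modulus `ω(t) = t / (1 + log (1 + t))` and a paraboloid region `G` every
function that is `ω`-semiconvex and `ω`-semiconcave belongs to `C^{1,ω}(G)`.
-/

namespace Pool.Agent.Results.MP_d2274e_an.ConeFreeAnswer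

open Filter Topology Q265.SC

/-- (c), (d): for every unbounded open convex cone-free `G ⊆ ℝ^n` and `0 < α < 1` there is a
function on `G` that is `t^α`-semiconvex and `t^α`-semiconcave and not in `C^{1,t^α}(G)`.
(a), (b): there is a concave `ω ∈ ℳ` with `ω(t)/t → 1` at `0+` and `ω(t)/t → 0` at `∞` such that
for every `n ≥ 2` some unbounded open convex cone-free `G ⊆ ℝ^n` has no such function. -/
theorem result :
    (∀ n : ℕ, 2 ≤ n → ∀ G : Set (EuclideanSpace ℝ (Fin n)), IsOpen G → Convex ℝ G →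
      ¬ Bornology.IsBounded G → ConeFree G → ∀ α : ℝ, 0 < α → α < 1 →
        ∃ f : EuclideanSpace ℝ (Fin n) → ℝ, Semiconvex (fun t => t ^ α) G f ∧
          Semiconcave (fun t => t ^ α) G f ∧ ¬ InC1 (fun t => t ^ α) G f) ∧
    (∃ ω : ℝ → ℝ, IsModulus ω ∧ ConcaveOn ℝ (Set.Ici 0) ω ∧
      Tendsto (fun t => ω t / t) (𝓝[>] 0) (𝓝 1) ∧ Tendsto (fun t => ω t / t) atTop (𝓝 0) ∧
      ∀ n : ℕ, 2 ≤ n → ∃ G : Set (EuclideanSpace ℝ (Fin n)), IsOpen G ∧ Convex ℝ G ∧
        ¬ Bornology.IsBounded G ∧ ConeFree G ∧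
        ∀ f : EuclideanSpace ℝ (Fin n) → ℝ, Semiconvex ω G f → Semiconcave ω G f →
          InC1 ω G f) :=
  ⟨fun _ _ G h1 h2 h3 h4 α h5 h6 => pos G h1 h2 h3 h4 α h5 h6,
    om, om_isModulus, om_concave, om_lim_zero, om_lim_top, fun _ hn => neg hn⟩

end Pool.Agent.Results.MP_d2274e_an.ConeFreeAnswer
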